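import Pool.Agent.Helper40.AV.St

/-!
# Project AV (helper40), module AV4: sums over primes as integrals
-/

set_option autoImplicit false

open Filter Topology

namespace Pool.Agent.Helper33.AV

open Pool.Agent.Helper44 (primesUpTo)
open Pool.Agent.Helper40.AV

theorem PI_eq {a b : ℝ} (ha : 0 ≤ a) :
    PI a b = (Finset.Ioc ⌊a⌋₊ ⌊b⌋₊).filter Nat.Prime := by
  ext p
  simp only [PI, primesUpTo, Finset.mem_filter, Finset.mem_Ioc]
  constructor
  · rintro ⟨⟨⟨_, h1⟩, h2⟩, h3⟩
    exact ⟨⟨(Nat.floor_lt ha).mpr h3, h1⟩, h2⟩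
  · rintro ⟨⟨h0, h1⟩, h2⟩
    exact ⟨⟨⟨h2.pos, h1⟩, h2⟩, (Nat.floor_lt ha).mp h0⟩

theorem mem_PI {a b : ℝ} (hb : 0 ≤ b) {p : ℕ} : p ∈ PI a b ↔ p.Prime ∧ a < p ∧ (p:ℝ) ≤ b := by
  unfold PI
  rw [Finset.mem_filter, Pool.Agent.Helper44.mem_primesUpTo hb]
  tauto

theorem sum_PI_add {a b c : ℝ} (hab : a ≤ b) (hbc : b ≤ c) (hb : 0 ≤ b) (g : ℕ → ℝ) :
    ∑ p ∈ PI a c, g p = ∑ p ∈ PI a b, g p + ∑ p ∈ PI b c, g p := by
  have hc : 0 ≤ c := hb.trans hbc
  have h1 : PI a c = PI a b ∪ PI b c := by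
    ext p
    rw [Finset.mem_union, mem_PI hc, mem_PI hb, mem_PI hc]
    constructor
    · rintro ⟨h1, h2, h3⟩
      rcases le_or_gt (p : ℝ) b with h | h
      · exact Or.inl ⟨h1, h2, h⟩
      · exact Or.inr ⟨h1, h, h3⟩
    · rintro (⟨h1, h2, h3⟩ | ⟨h1, h2, h3⟩)
      · exact ⟨h1, h2, h3.trans hbc⟩
      · exact ⟨h1, hab.trans_lt h2, h3⟩
  rw [h1, Finset.sum_union]
  rw [Finset.disjoint_left]
  intro p h2 h3
  rw [mem_PI hb] at h2
  rw [mem_PI hc] at h3
  linarith [h2.2.2, h3.2.1]

theorem S_tendsto {a b : ℝ} (ha : 0 < a) (hab : a ≤ b) :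
    Tendsto (fun X : ℝ => ∑ p ∈ PI (X ^ a) (X ^ b), (1 : ℝ) / p) atTop
      (𝓝 (Real.log (b / a))) := by
  obtain ⟨C, hC, hM⟩ := Pool.Agent.Helper44.mertens_interval
  rw [tendsto_iff_dist_tendsto_zero]
  have h1 : ∀ᶠ X : ℝ in atTop, 2 ≤ X ^ a := (tendsto_rpow_atTop ha).eventually_ge_atTop 2
  have h2 : Tendsto (fun X : ℝ => C / (a * Real.log X)) atTop (𝓝 0) :=
    Tendsto.const_div_atTop (Tendsto.const_mul_atTop ha Real.tendsto_log_atTop) C
  refine squeeze_zero' (Eventually.of_forall fun _ => dist_nonneg) ?_ h2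
  filter_upwards [h1, eventually_gt_atTop 1] with X hX hX1
  have hX0 : 0 < X := by linarith
  have hlX : 0 < Real.log X := Real.log_pos hX1
  have h3 := hM (X ^ a) (X ^ b) hX (Real.rpow_le_rpow_of_exponent_le hX1.le hab)
  rw [Real.log_rpow hX0, Real.log_rpow hX0, mul_div_mul_right _ _ hlX.ne'] at h3
  rw [PI_eq (Real.rpow_nonneg hX0.le a), Real.dist_eq]
  exact h3

theorem step {a b ε η : ℝ} {f : ℝ → ℝ} (ha : 0 < a) (hab : a ≤ b)
    (hf : ContinuousOn f (Set.Icc a b)) (hε : 0 ≤ ε) (hη : 0 < η)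
    (hosc : ∀ t ∈ Set.Icc a b, |f t - f b| ≤ ε) :
    ∀ᶠ X : ℝ in atTop, |∑ p ∈ PI (X ^ a) (X ^ b), (1 : ℝ) / p * f (Real.log p / Real.log X) -
      ∫ t in a..b, f t / t| ≤ 2 * ε * Real.log (b / a) + η := by
  have hb : 0 < b := ha.trans_le hab
  set L := Real.log (b / a) with hL
  have hL0 : 0 ≤ L := Real.log_nonneg ((one_le_div ha).mpr hab)
  have hcont1 : ContinuousOn (fun t : ℝ => 1 / t) (Set.uIcc a b) := by
    rw [Set.uIcc_of_le hab]
    apply ContinuousOn.div continuousOn_const continuousOn_id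
    intro t ht
    exact (ha.trans_le ht.1).ne'
  have hcont2 : ContinuousOn (fun t : ℝ => (f t - f b) / t) (Set.uIcc a b) := by
    rw [Set.uIcc_of_le hab]
    apply ContinuousOn.div (hf.sub continuousOn_const) continuousOn_id
    intro t ht
    exact (ha.trans_le ht.1).ne'
  have hint1 : ∫ t in a..b, 1 / t = L := by
    rw [integral_one_div_of_pos ha hb]
  have hI : |(∫ t in a..b, f t / t) - f b * L| ≤ ε * L := by
    have h1 : (∫ t in a..b, f t / t) = (∫ t in a..b, (f t - f b) / t) + f b * L := by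
      rw [← hint1, ← intervalIntegral.integral_const_mul, ← intervalIntegral.integral_add
        hcont2.intervalIntegrable (hcont1.intervalIntegrable.const_mul _)]
      apply intervalIntegral.integral_congr
      intro t _
      simp only
      ring
    rw [h1, add_sub_cancel_right]
    have h2 : ∫ t in a..b, ε * (1 / t) = ε * L := by
      rw [intervalIntegral.integral_const_mul, hint1]
    rw [← h2, ← Real.norm_eq_abs]
    apply intervalIntegral.norm_integral_le_of_norm_le hab _
      (hcont1.intervalIntegrable.const_mul _)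
    refine Eventually.of_forall fun t ht => ?_
    have ht0 : 0 < t := ha.trans ht.1
    rw [Real.norm_eq_abs, abs_div, abs_of_pos ht0, div_eq_mul_one_div]
    exact mul_le_mul_of_nonneg_right (hosc t ⟨ht.1.le, ht.2⟩) (by positivity)
  set δ := η / (ε + |f b| + 1) with hδ
  have hden : 0 < ε + |f b| + 1 := by positivity
  have hδ0 : 0 < δ := by positivity
  have hS := (Metric.tendsto_nhds.mp (S_tendsto ha hab)) δ hδ0
  filter_upwards [hS, eventually_gt_atTop 1] with X hX hX1
  rw [Real.dist_eq] at hX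
  have hX0 : 0 < X := by linarith
  have hlX : 0 < Real.log X := Real.log_pos hX1
  set S := ∑ p ∈ PI (X ^ a) (X ^ b), (1 : ℝ) / p with hSdef
  have hT : |∑ p ∈ PI (X ^ a) (X ^ b), (1 : ℝ) / p * f (Real.log p / Real.log X) - f b * S| ≤
      ε * S := by
    rw [hSdef, Finset.mul_sum, Finset.mul_sum, ← Finset.sum_sub_distrib]
    refine (Finset.abs_sum_le_sum_abs _ _).trans ?_
    apply Finset.sum_le_sum
    intro p hp
    rw [mem_PI (Real.rpow_nonneg hX0.le b)] at hp
    obtain ⟨hp1, hp2, hp3⟩ := hp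
    have hp0 : (0 : ℝ) < p := by exact_mod_cast hp1.pos
    have h4 : a * Real.log X ≤ Real.log p := by
      rw [← Real.log_rpow hX0]
      exact Real.log_le_log (Real.rpow_pos_of_pos hX0 a) hp2.le
    have h5 : Real.log p ≤ b * Real.log X := by
      rw [← Real.log_rpow hX0]
      exact Real.log_le_log hp0 hp3
    have h6 := hosc (Real.log p / Real.log X) ⟨(le_div_iff₀ hlX).mpr h4, (div_le_iff₀ hlX).mpr h5⟩
    have h7 : (1 : ℝ) / p * f (Real.log p / Real.log X) - f b * (1 / p) =
        (f (Real.log p / Real.log X) - f b) * (1 / p) := by ring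
    rw [h7, abs_mul, abs_of_pos (by positivity : (0 : ℝ) < 1 / p)]
    exact mul_le_mul_of_nonneg_right h6 (by positivity)
  have h8 : δ * (ε + |f b| + 1) = η := by
    rw [hδ]; field_simp
  have h9 : |f b * (S - L)| ≤ |f b| * δ := by
    rw [abs_mul]
    exact mul_le_mul_of_nonneg_left hX.le (abs_nonneg _)
  have h10 : ε * (S - L) ≤ ε * δ :=
    mul_le_mul_of_nonneg_left ((le_abs_self _).trans hX.le) hε
  rw [abs_le] at hI hT h9 ⊢
  have h11 : f b * (S - L) = f b * S - f b * L := by ring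
  constructor <;> nlinarith [hI.1, hI.2, hT.1, hT.2, h9.1, h9.2]

theorem primeInt : PrimeInt := by
  intro α β f hα hαβ hf
  rw [Metric.tendsto_nhds]
  intro ε₀ hε₀
  have hβ : 0 < β := hα.trans_le hαβ
  set L := Real.log (β / α) with hL
  have hL0 : 0 ≤ L := Real.log_nonneg ((one_le_div hα).mpr hαβ)
  set ε := ε₀ / (4 * (L + 1)) with hε
  have hε0 : 0 < ε := by positivity
  have hu := isCompact_Icc.uniformContinuousOn_of_continuous hf
  rw [Metric.uniformContinuousOn_iff] at hu
  obtain ⟨δ, hδ0, hδ⟩ := hu ε hε0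
  set h := δ / 2 with hh
  have hh0 : 0 < h := by positivity
  set b : ℕ → ℝ := fun n => min (α + n * h) β with hb
  have hbα : ∀ n, α ≤ b n := by
    intro n
    apply le_min _ hαβ
    have h1 : 0 ≤ (n : ℝ) * h := mul_nonneg n.cast_nonneg hh0.le
    linarith
  have hbβ : ∀ n, b n ≤ β := fun n => min_le_right _ _
  have hb0 : ∀ n, 0 < b n := fun n => hα.trans_le (hbα n)
  have hbmono : ∀ n, b n ≤ b (n + 1) := by
    intro n
    apply min_le_min _ le_rfl
    push_cast
    nlinarith
  have hbstep : ∀ n, b (n + 1) ≤ b n + h := by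
    intro n
    simp only [hb]
    rcases le_total (α + n * h) β with h1 | h1
    · rw [min_eq_left h1]
      refine (min_le_left _ _).trans ?_
      push_cast
      nlinarith
    · rw [min_eq_right h1]
      exact (min_le_right _ _).trans (by linarith)
  have hcd : ∀ x y : ℝ, α ≤ x → x ≤ y → y ≤ β →
      IntervalIntegrable (fun t => f t / t) MeasureTheory.volume x y := by
    intro x y hx hxy hy
    apply ContinuousOn.intervalIntegrable
    rw [Set.uIcc_of_le hxy]
    apply ContinuousOn.div (hf.mono (Set.Icc_subset_Icc hx hy)) continuousOn_id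
    intro t ht
    exact (hα.trans_le (hx.trans ht.1)).ne'
  have hind : ∀ n : ℕ, ∀ η : ℝ, 0 < η → ∀ᶠ X : ℝ in atTop,
      |∑ p ∈ PI (X ^ α) (X ^ (b n)), (1 : ℝ) / p * f (Real.log p / Real.log X) -
      ∫ t in α..(b n), f t / t| ≤ 2 * ε * Real.log (b n / α) + η := by
    intro n
    induction n with
    | zero =>
      intro η hη
      have h0 : b 0 = α := by simp [hb, hαβ]
      rw [h0]
      have h1 := step (f := f) (ε := 0) hα le_rfl (by
        rw [Set.Icc_self]
        exact continuousOn_singleton f α) le_rfl hη (by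
        intro t ht
        rw [Set.Icc_self, Set.mem_singleton_iff] at ht
        rw [ht]; simp)
      filter_upwards [h1] with X hX
      have h2 : Real.log (α / α) = 0 := by rw [div_self hα.ne', Real.log_one]
      rw [h2] at hX ⊢
      simpa using hX
    | succ n ih =>
      intro η hη
      have h1 := ih (η / 2) (by positivity)
      have h2 := step (f := f) (ε := ε) (η := η / 2) (hb0 n) (hbmono n)
        (hf.mono (Set.Icc_subset_Icc (hbα n) (hbβ (n + 1)))) hε0.le (by positivity) (by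
        intro t ht
        have h3 := hδ t ⟨(hbα n).trans ht.1, ht.2.trans (hbβ (n + 1))⟩ (b (n + 1))
          ⟨hbα (n + 1), hbβ (n + 1)⟩ (by
            rw [Real.dist_eq, abs_sub_comm, abs_of_nonneg (by linarith [ht.2])]
            linarith [ht.1, hbstep n])
        rw [Real.dist_eq] at h3
        exact h3.le)
      filter_upwards [h1, h2, eventually_gt_atTop 1] with X hX1 hX2 hX
      have hX0 : 0 < X := by linarith
      rw [sum_PI_add (Real.rpow_le_rpow_of_exponent_le hX.le (hbα n))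
        (Real.rpow_le_rpow_of_exponent_le hX.le (hbmono n)) (Real.rpow_nonneg hX0.le _),
        ← intervalIntegral.integral_add_adjacent_intervals
          (hcd α (b n) le_rfl (hbα n) (hbβ n)) (hcd (b n) (b (n + 1)) (hbα n) (hbmono n)
          (hbβ (n + 1)))]
      have h4 : Real.log (b (n + 1) / α) = Real.log (b n / α) + Real.log (b (n + 1) / b n) := by
        rw [← Real.log_mul (div_pos (hb0 n) hα).ne' (div_pos (hb0 (n + 1)) (hb0 n)).ne']
        congr 1
        have := (hb0 n).ne'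
        field_simp
      rw [h4]
      rw [abs_le] at hX1 hX2 ⊢
      constructor <;> linarith [hX1.1, hX1.2, hX2.1, hX2.2]
  obtain ⟨n, hn⟩ := exists_nat_ge ((β - α) / h)
  have hbn : b n = β := by
    apply min_eq_right
    rw [div_le_iff₀ hh0] at hn
    linarith
  have h1 := hind n (ε₀ / 4) (by positivity)
  rw [hbn] at h1
  filter_upwards [h1] with X hX
  rw [Real.dist_eq]
  refine hX.trans_lt ?_
  have h2 : ε * (L + 1) = ε₀ / 4 := by
    rw [hε]; field_simp
  nlinarith

end Pool.Agent.Helper33.AV
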